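import Mathlib

/-!
Extended promotion on the labelings of a finite poset: the degree of noninvertibility is at most
`(n+2)(n+1)/6`, the value for the `n`-element chain.
-/

namespace Pool.Agent.Results.MP_180e15_co.ChainMaximises

open Finset

section Defs

/-- A labeling of `P`: a bijection onto `{1,…,n}`, `n = |P|`; the label of `x` is `lab L x`. -/
abbrev Labeling (P : Type) [Fintype P] : Type := P ≃ Fin (Fintype.card P)

variable {P : Type} [Fintype P] [PartialOrder P]

/-- The label of `x`, a number in `{1,…,n}`. -/
def lab (L : Labeling P) (x : P) : ℕ := (L x : ℕ) + 1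

open Classical in
/-- The `L`-successor of `x`: the element `y > x` with the smallest label (and `x` itself if `x`
is maximal). -/
noncomputable def lsucc (L : Labeling P) (x : P) : P :=
  if h : (univ.filter fun y => x < y).Nonempty then
    L.symm (((univ.filter fun y => x < y).image L).min' (h.image L))
  else x

/-- The promotion chain `v₁ < v₂ < … < v_m` (`v_{j+1} = chainSeq L j`, constant from the first
maximal element on). -/
noncomputable def chainSeq [Nonempty P] (L : Labeling P) : ℕ → P
  | 0 => L.symm ⟨0, Fintype.card_pos⟩
  | j + 1 => lsucc L (chainSeq L j)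

open Classical in
/-- Extended promotion: the label of `x` in `∂(L)`. -/
noncomputable def promote [Nonempty P] (L : Labeling P) (x : P) : ℕ :=
  if ∃ j, chainSeq L j = x then
    if IsMax x then Fintype.card P else lab L (lsucc L x) - 1
  else lab L x - 1

open Classical in
/-- The labelings `L` with `∂(L) = M`. -/
noncomputable def preimages [Nonempty P] (M : Labeling P) : Finset (Labeling P) :=
  univ.filter fun L => ∀ x, promote L x = lab M x

open Classical in
/-- The degree of noninvertibility of extended promotion. -/
noncomputable def deg (P : Type) [Fintype P] [PartialOrder P] [Nonempty P] : ℚ :=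
  (∑ M : Labeling P, ((preimages M).card : ℚ) ^ 2) / (Fintype.card (Labeling P) : ℚ)

end Defs

/-! ### Labelings as lists -/

section Lists

variable {P : Type} [PartialOrder P] [DecidableEq P] [DecidableLT P]

/-- Promotion on lists, with carried element `v`. -/
def slide (v : P) : List P → List P
  | [] => [v]
  | y :: t => if v < y then v :: slide y t else y :: slide v t

variable [Fintype P]

/-- The lists `t` with `slide v t = l` and `v :: t` without repetitions. -/
def Wset : List P → P → Finset (List P)
  | [], _ => ∅
  | z :: l, v =>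
      if z = v then (if l = [] then {[]} else ∅) ∪
        (univ.filter fun y => v < y).biUnion fun y => (Wset l y).image (List.cons y)
      else if v < z then ∅ else (Wset l v).image (List.cons z)

/-- Its size. -/
def w : List P → P → ℕ
  | [], _ => 0
  | z :: l, v =>
      if z = v then (if l = [] then 1 else 0) + ∑ y ∈ univ.filter (fun y => v < y), w l y
      else if v < z then 0 else w l v

lemma card_Wset (l : List P) : ∀ v : P, (Wset l v).card ≤ w l v := by
  induction l with
  | nil => intro v; simp [Wset]
  | cons z l ih =>
    intro v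
    simp only [Wset, w]
    split_ifs with h1 h2 h3
    · refine (card_union_le _ _).trans ?_
      refine Nat.add_le_add (by simp) ?_
      refine card_biUnion_le.trans (sum_le_sum fun y _ => ?_)
      exact card_image_le.trans (ih y)
    · refine (card_union_le _ _).trans ?_
      refine Nat.add_le_add (by simp) ?_
      refine card_biUnion_le.trans (sum_le_sum fun y _ => ?_)
      exact card_image_le.trans (ih y)
    · simp
    · exact card_image_le.trans (ih v)

lemma mem_Wset (t : List P) : ∀ v : P, (v :: t).Nodup → t ∈ Wset (slide v t) v := by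
  induction t with
  | nil => intro v _; simp [slide, Wset]
  | cons y t ih =>
    intro v hnd
    have hvy : v ≠ y := fun e => by
      rw [e] at hnd
      simp at hnd
    simp only [slide]
    split_ifs with h
    · simp only [Wset, if_true]
      apply mem_union_right
      rw [mem_biUnion]
      refine ⟨y, by simp [h], ?_⟩
      rw [mem_image]
      exact ⟨t, ih y (List.nodup_cons.1 hnd).2, rfl⟩
    · simp only [Wset]
      rw [if_neg (Ne.symm hvy), if_neg h, mem_image]
      refine ⟨t, ih v ?_, rfl⟩
      rw [List.nodup_cons] at hnd ⊢
      exact ⟨fun h' => hnd.1 (List.mem_cons_of_mem _ h'), (List.nodup_cons.1 hnd.2).2⟩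

/-- Sum over the orderings of a set. -/
def osum : ℕ → Finset P → (List P → ℕ) → ℕ
  | 0, _, g => g []
  | n + 1, S, g => ∑ z ∈ S, osum n (S.erase z) fun l => g (z :: l)

omit [PartialOrder P] [DecidableLT P] [Fintype P] in
lemma osum_congr (n : ℕ) : ∀ (S : Finset P) (g g' : List P → ℕ),
    (∀ l, l.length = n → g l = g' l) → osum n S g = osum n S g' := by
  induction n with
  | zero => intro S g g' h; exact h [] rfl
  | succ n ih =>
    intro S g g' h
    simp only [osum]
    exact sum_congr rfl fun z _ => ih _ _ _ fun l hl => h (z :: l) (by simp [hl])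

omit [PartialOrder P] [DecidableLT P] [Fintype P] in
lemma osum_zero (n : ℕ) : ∀ (S : Finset P), osum n S (fun _ => 0) = 0 := by
  induction n with
  | zero => intro S; rfl
  | succ n ih =>
    intro S
    simp only [osum, ih, sum_const_zero]

omit [PartialOrder P] [DecidableLT P] [Fintype P] in
lemma osum_sum {ι : Type*} (I : Finset ι) (n : ℕ) : ∀ (S : Finset P) (g : ι → List P → ℕ),
    osum n S (fun l => ∑ i ∈ I, g i l) = ∑ i ∈ I, osum n S (g i) := by
  induction n with
  | zero => intro S g; rfl
  | succ n ih =>
    intro S g
    simp only [osum, ih]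
    exact sum_comm

omit [PartialOrder P] [DecidableLT P] [Fintype P] in
lemma sum_le_osum (n : ℕ) : ∀ (S : Finset P) (g : List P → ℕ) (A : Finset (List P)),
    (∀ l ∈ A, l.length = n ∧ l.Nodup ∧ ∀ x ∈ l, x ∈ S) → ∑ l ∈ A, g l ≤ osum n S g := by
  induction n with
  | zero =>
    intro S g A hA
    have : A ⊆ {[]} := by
      intro l hl
      have := (hA l hl).1
      rw [List.length_eq_zero_iff] at this
      simp [this]
    exact (sum_le_sum_of_subset this).trans (by simp [osum])
  | succ n ih =>
    intro S g A hA
    simp only [osum]
    have hmap : ∀ l ∈ A, l.head? ∈ S.map Function.Embedding.some := by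
      intro l hl
      obtain ⟨h1, h2, h3⟩ := hA l hl
      rcases l with _ | ⟨z, l⟩
      · simp at h1
      · simp [h3 z (by simp)]
    rw [← sum_fiberwise_of_maps_to hmap g, sum_map]
    refine sum_le_sum fun z _ => ?_
    have hform : ∀ l ∈ A.filter (fun l => l.head? = Function.Embedding.some z),
        l = z :: l.tail := by
      intro l hl
      have h1 := (mem_filter.1 hl).2
      rcases l with _ | ⟨z', l⟩
      · simp at h1
      · simp at h1; simp [h1]
    have hinj : Set.InjOn List.tail
        (A.filter (fun l => l.head? = Function.Embedding.some z) : Set (List P)) := by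
      intro l hl l' hl' h
      rw [hform l (by exact_mod_cast hl), hform l' (by exact_mod_cast hl'), h]
    have h2 : ∑ l ∈ A.filter (fun l => l.head? = Function.Embedding.some z), g l =
        ∑ l ∈ (A.filter (fun l => l.head? = Function.Embedding.some z)).image List.tail,
          g (z :: l) := by
      rw [sum_image hinj]
      refine sum_congr rfl fun l hl => ?_
      rw [← hform l hl]
    rw [h2]
    apply ih
    intro l' hl'
    obtain ⟨l, hl, rfl⟩ := mem_image.1 hl'
    have h3 := hform l hl
    obtain ⟨h4, h5, h6⟩ := hA l (mem_filter.1 hl).1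
    rw [h3] at h4 h5 h6
    simp only [List.length_cons, Nat.add_right_cancel_iff] at h4
    rw [List.nodup_cons] at h5
    refine ⟨h4, h5.2, fun x hx => mem_erase.2 ⟨?_, h6 x (List.mem_cons_of_mem _ hx)⟩⟩
    rintro rfl
    exact h5.1 hx

/-- Number of elements strictly above `a`. -/
def up (a : P) : Finset P := univ.filter fun y => a < y

/-- `|P_{>a}|`. -/
def s (a : P) : ℕ := (up a).card

omit [DecidableEq P] in
lemma mem_up (a y : P) : y ∈ up a ↔ a < y := by simp [up]

omit [DecidableEq P] in
lemma up_subset {a b : P} (h : a ≤ b) : up b ⊆ up a := by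
  intro y hy
  rw [mem_up] at *
  exact lt_of_le_of_lt h hy

omit [DecidableEq P] in
lemma s_lt {a b : P} (h : a < b) : s b < s a := by
  apply card_lt_card
  refine ⟨up_subset h.le, fun h' => ?_⟩
  have := h' ((mem_up a b).2 h)
  exact lt_irrefl _ ((mem_up b b).1 this)

/-- `6 k(s)`. -/
def k6 (s : ℕ) : ℕ := if s = 0 then 6 else 2 * (s + 2)

/-- `6 v(s)`. -/
def v6 (s : ℕ) : ℕ := if s = 0 then 6 else (s + 1) * (s + 2)

/-- `6 β(a,b)`. -/
def β (a b : P) : ℕ := if a = b then v6 (s a) else k6 (min (s a) (s b))

lemma k6_mono : Monotone k6 := by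
  apply monotone_nat_of_le_succ
  intro n
  unfold k6
  rw [if_neg (Nat.succ_ne_zero n)]
  split_ifs <;> omega

lemma sum_k6 (n : ℕ) : ∑ j ∈ range n, k6 j = if n = 0 then 0 else (n + 1) * (n + 2) := by
  induction n with
  | zero => simp
  | succ n ih =>
    rw [sum_range_succ, ih]
    rcases Nat.eq_zero_or_pos n with h | h
    · subst h; simp [k6]
    · rw [if_neg (by omega), if_neg (by omega)]
      unfold k6
      rw [if_neg (by omega)]
      ring

lemma two_sum_k6 (n : ℕ) : 2 * ∑ j ∈ range n, k6 j ≤ (n + 1) * k6 n := by
  rw [sum_k6]
  unfold k6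
  rcases Nat.eq_zero_or_pos n with h | h
  · subst h; simp
  · rw [if_neg (by omega), if_neg (by omega)]
    apply le_of_eq; ring

lemma β_comm (a b : P) : β a b = β b a := by
  unfold β
  by_cases h : a = b
  · subst h; rfl
  · rw [if_neg h, if_neg (Ne.symm h), min_comm]

/-- Sorted domination. -/
lemma sum_dom (φ : ℕ → ℕ) (hφ : Monotone φ) (n : ℕ) : ∀ (T : Finset P), T.card = n →
    (∀ c ∈ T, up c ⊆ T) → ∑ c ∈ T, φ (s c) ≤ ∑ j ∈ range n, φ j := by
  induction n with
  | zero =>
    intro T hT _
    rw [card_eq_zero] at hT
    simp [hT]
  | succ n ih =>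
    intro T hT hup
    obtain ⟨m, hm, hmin⟩ := T.exists_minimal (card_pos.1 (by omega))
    rw [← add_sum_erase _ _ hm, sum_range_succ, add_comm]
    refine Nat.add_le_add (ih _ (by rw [card_erase_of_mem hm, hT]; rfl) ?_) (hφ ?_)
    · intro c hc y hy
      rw [mem_erase] at hc ⊢
      refine ⟨?_, hup c hc.2 hy⟩
      rintro rfl
      rw [mem_up] at hy
      exact absurd (hmin hc.2 hy.le) (not_le_of_gt hy)
    · have h1 : up m ⊆ T.erase m := by
        intro y hy
        rw [mem_erase]
        refine ⟨?_, hup m hm hy⟩
        rintro rfl
        exact lt_irrefl _ ((mem_up y y).1 hy)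
      have := card_le_card h1
      rw [card_erase_of_mem hm, hT] at this
      exact this

/-- The total bound. -/
lemma sum_beta (n : ℕ) : ∀ (T : Finset P), T.card = n →
    (∀ c ∈ T, up c ⊆ T) → ∑ a ∈ T, ∑ b ∈ T, β a b ≤ n * (n + 1) * (n + 2) := by
  induction n with
  | zero =>
    intro T hT _
    rw [card_eq_zero] at hT
    simp [hT]
  | succ n ih =>
    intro T hT hup
    obtain ⟨m, hm, hmin⟩ := T.exists_minimal (card_pos.1 (by omega))
    have hcard : (T.erase m).card = n := by rw [card_erase_of_mem hm, hT]; rfl
    have hup' : ∀ c ∈ T.erase m, up c ⊆ T.erase m := by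
      intro c hc y hy
      rw [mem_erase] at hc ⊢
      refine ⟨?_, hup c hc.2 hy⟩
      rintro rfl
      rw [mem_up] at hy
      exact absurd (hmin hc.2 hy.le) (not_le_of_gt hy)
    have hsm : s m ≤ n := by
      have h1 : up m ⊆ T.erase m := by
        intro y hy
        rw [mem_erase]
        refine ⟨?_, hup m hm hy⟩
        rintro rfl
        exact lt_irrefl _ ((mem_up y y).1 hy)
      have := card_le_card h1
      rw [hcard] at this
      exact this
    have h1 := ih _ hcard hup'
    have h2 : ∑ c ∈ T.erase m, β m c ≤ ∑ j ∈ range n, k6 j := by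
      refine le_trans (sum_le_sum fun c hc => ?_) (sum_dom k6 k6_mono n _ hcard hup')
      unfold β
      rw [if_neg (Ne.symm (mem_erase.1 hc).1)]
      exact k6_mono (min_le_right _ _)
    have h3 : ∑ a ∈ T, ∑ b ∈ T, β a b =
        β m m + 2 * ∑ c ∈ T.erase m, β m c + ∑ a ∈ T.erase m, ∑ b ∈ T.erase m, β a b := by
      rw [← add_sum_erase _ _ hm, ← add_sum_erase _ _ hm]
      have : ∑ x ∈ T.erase m, ∑ b ∈ T, β x b =
          ∑ x ∈ T.erase m, (β m x + ∑ b ∈ T.erase m, β x b) := by
        refine sum_congr rfl fun x _ => ?_
        rw [← add_sum_erase _ _ hm, β_comm x m]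
      rw [this, sum_add_distrib]
      ring
    have h4 : β m m ≤ v6 n := by
      unfold β
      rw [if_pos rfl]
      unfold v6
      split_ifs with e1 e2
      · exact le_refl _
      · have : 1 ≤ n := Nat.one_le_iff_ne_zero.2 e2
        nlinarith
      · omega
      · exact Nat.mul_le_mul (by omega) (by omega)
    rw [h3]
    rw [sum_k6] at h2
    unfold v6 at h4
    rcases Nat.eq_zero_or_pos n with h | h
    · subst h
      simp at h1 h2 h4 ⊢
      have : T.erase m = ∅ := card_eq_zero.1 hcard
      rw [this]
      simp
      omega
    · rw [if_neg (by omega)] at h2 h4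
      nlinarith

omit [DecidableEq P] in
lemma up_closed (a : P) : ∀ c ∈ up a, up c ⊆ up a := by
  intro c hc
  rw [mem_up] at hc
  exact up_subset hc.le

/-- The principal filter of `a`. -/
def F (a : P) : Finset P := insert a (up a)

lemma mem_F (a y : P) : y ∈ F a ↔ a ≤ y := by
  unfold F
  rw [mem_insert, mem_up, le_iff_eq_or_lt, eq_comm]

lemma card_F (a : P) : (F a).card = s a + 1 := by
  unfold F
  rw [card_insert_of_notMem]
  · rfl
  · intro h; exact lt_irrefl _ ((mem_up a a).1 h)

lemma K_self (a : P) : ∑ y ∈ up a, ∑ y' ∈ up a, β y y' ≤ s a * β a a := by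
  refine (sum_beta (s a) (up a) rfl (up_closed a)).trans ?_
  unfold β
  rw [if_pos rfl]
  unfold v6
  rcases Nat.eq_zero_or_pos (s a) with h | h
  · rw [h]; simp
  · rw [if_neg (by omega)]
    apply le_of_eq; ring

lemma v6_add (n : ℕ) : v6 n + ∑ j ∈ range n, k6 j ≤ (n + 1) * k6 n := by
  rw [sum_k6]
  unfold v6 k6
  rcases Nat.eq_zero_or_pos n with h | h
  · subst h; simp
  · rw [if_neg (by omega), if_neg (by omega), if_neg (by omega)]
    apply le_of_eq; ring

lemma β_le_right (a b : P) (h : a ≠ b) : β a b ≤ k6 (s b) := by
  unfold β
  rw [if_neg h]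
  exact k6_mono (min_le_right _ _)

lemma β_le_left (a b : P) (h : a ≠ b) : β a b ≤ k6 (s a) := by
  unfold β
  rw [if_neg h]
  exact k6_mono (min_le_left _ _)

/-- Comparable case. -/
lemma K_lt (a b : P) (h : a < b) : ∑ y ∈ up a, β y b ≤ s a * β a b := by
  have hsub : F b ⊆ up a := by
    intro y hy
    rw [mem_F] at hy
    rw [mem_up]
    exact lt_of_lt_of_le h hy
  have hc := card_le_card hsub
  rw [card_F] at hc
  have hβ : β a b = k6 (s b) := by
    unfold β
    rw [if_neg h.ne, min_eq_right (s_lt h).le]
  rw [hβ, ← sum_sdiff hsub]
  have h1 : ∑ y ∈ up a \ F b, β y b ≤ (s a - (s b + 1)) * k6 (s b) := by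
    refine (sum_le_card_nsmul _ _ (k6 (s b)) fun y hy => ?_).trans ?_
    · apply β_le_right
      rintro rfl
      exact (mem_sdiff.1 hy).2 ((mem_F y y).2 le_rfl)
    · rw [smul_eq_mul, card_sdiff_of_subset hsub, card_F]
      rfl
  have h2 : ∑ y ∈ F b, β y b ≤ (s b + 1) * k6 (s b) := by
    unfold F
    rw [sum_insert (fun h => lt_irrefl _ ((mem_up b b).1 h))]
    refine le_trans (Nat.add_le_add (b := v6 (s b)) ?_ ?_) (v6_add (s b))
    · unfold β; rw [if_pos rfl]
    · refine le_trans (sum_le_sum fun y hy => ?_)
        (sum_dom k6 k6_mono (s b) (up b) rfl (up_closed b))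
      apply β_le_left
      rintro rfl
      exact lt_irrefl _ ((mem_up y y).1 hy)
  have hsa : s a = (up a).card := rfl
  have h3 : s a - (s b + 1) + (s b + 1) = s a := by omega
  calc _ ≤ (s a - (s b + 1)) * k6 (s b) + (s b + 1) * k6 (s b) := Nat.add_le_add h1 h2
    _ = s a * k6 (s b) := by rw [← add_mul, h3]

/-- Incomparable case. -/
lemma K_inc (a b : P) (h1 : a ≠ b) (h2 : ¬ a < b) (h3 : ¬ b < a) (hs : s b ≤ s a) :
    ∑ y ∈ up a, β y b + ∑ y ∈ up b, β a y ≤ ((F a ∪ F b).card - 1) * β a b := by
  have hβ : β a b = k6 (s b) := by
    unfold β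
    rw [if_neg h1, min_eq_right hs]
  have hint : F a ∩ F b = up a ∩ up b := by
    ext y
    rw [mem_inter, mem_inter, mem_F, mem_F, mem_up, mem_up]
    constructor
    · rintro ⟨e1, e2⟩
      refine ⟨lt_of_le_of_ne e1 ?_, lt_of_le_of_ne e2 ?_⟩
      · rintro rfl
        exact h3 (lt_of_le_of_ne e2 (Ne.symm h1))
      · rintro rfl
        exact h2 (lt_of_le_of_ne e1 h1)
    · rintro ⟨e1, e2⟩
      exact ⟨e1.le, e2.le⟩
  have hcard := card_union_add_card_inter (F a) (F b)
  rw [card_F, card_F, hint] at hcard
  set i := (up a ∩ up b).card with hi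
  have hia : i ≤ s a := card_le_card inter_subset_left
  have hib : i ≤ s b := card_le_card inter_subset_right
  have e1 : ∑ y ∈ up a, β y b ≤ (s a - i) * k6 (s b) + ∑ j ∈ range i, k6 j := by
    have hsub : up a ∩ up b ⊆ up a := inter_subset_left
    rw [← sum_sdiff hsub]
    apply Nat.add_le_add
    · refine (sum_le_card_nsmul _ _ (k6 (s b)) fun y hy => ?_).trans ?_
      · apply β_le_right
        rintro rfl
        exact h2 ((mem_up a y).1 (mem_sdiff.1 hy).1)
      · rw [smul_eq_mul, card_sdiff_of_subset hsub]
        rfl
    · refine le_trans (sum_le_sum fun y hy => ?_)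
        (sum_dom k6 k6_mono i (up a ∩ up b) rfl ?_)
      · apply β_le_left
        rintro rfl
        exact lt_irrefl _ ((mem_up y y).1 (mem_inter.1 hy).2)
      · intro c hc
        rw [mem_inter] at hc
        exact subset_inter (up_closed a c hc.1) (up_closed b c hc.2)
  have e2 : ∑ y ∈ up b, β a y ≤ ∑ j ∈ range (s b), k6 j := by
    refine le_trans (sum_le_sum fun y hy => ?_)
      (sum_dom k6 k6_mono (s b) (up b) rfl (up_closed b))
    apply β_le_right
    rintro rfl
    exact h3 ((mem_up b a).1 hy)
  have e3 : ∑ j ∈ range i, k6 j ≤ ∑ j ∈ range (s b), k6 j :=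
    sum_le_sum_of_subset (range_subset_range.2 hib)
  have e4 := two_sum_k6 (s b)
  have e5 : (F a ∪ F b).card - 1 = (s a - i) + (s b + 1) := by omega
  rw [e5, hβ, add_mul]
  omega

lemma K_ne (a b : P) (h : a ≠ b) :
    (if b < a then 0 else ∑ y ∈ up a, β y b) + (if a < b then 0 else ∑ y ∈ up b, β a y) ≤
      ((F a ∪ F b).card - 1) * β a b := by
  by_cases h1 : a < b
  · have h2 : ¬ b < a := not_lt_of_gt h1
    rw [if_neg h2, if_pos h1, add_zero]
    have : F a ∪ F b = F a := by
      apply union_eq_left.2
      intro y hy
      rw [mem_F] at *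
      exact h1.le.trans hy
    rw [this, card_F]
    exact K_lt a b h1
  by_cases h2 : b < a
  · rw [if_pos h2, if_neg h1, zero_add]
    have : F a ∪ F b = F b := by
      apply union_eq_right.2
      intro y hy
      rw [mem_F] at *
      exact h2.le.trans hy
    rw [this, card_F, β_comm a b]
    refine le_trans (le_of_eq ?_) (K_lt b a h2)
    exact sum_congr rfl fun y _ => β_comm a y
  rw [if_neg h2, if_neg h1]
  rcases le_total (s b) (s a) with hs | hs
  · exact K_inc a b h h1 h2 hs
  · have := K_inc b a (Ne.symm h) h2 h1 hs
    rw [union_comm, β_comm b a] at this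
    rw [add_comm]
    refine le_trans (le_of_eq ?_) this
    congr 1
    · exact sum_congr rfl fun y _ => β_comm a y
    · exact sum_congr rfl fun y _ => β_comm y b

lemma w_cons (z v : P) (l : List P) (hl : l ≠ []) :
    w (z :: l) v = if z = v then ∑ y ∈ up v, w l y else if v < z then 0 else w l v := by
  simp only [w, if_neg hl, zero_add]
  rfl

lemma main (n : ℕ) : ∀ (S : Finset P) (a b : P), S.card = n + 1 → F a ∪ F b ⊆ S →
    6 * osum (n + 1) S (fun l => w l a * w l b) ≤ n.factorial * β a b := by
  induction n with
  | zero =>
    intro S a b hS hU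
    obtain ⟨z, rfl⟩ := card_eq_one.1 hS
    have ha : a = z := by
      have := hU (mem_union_left _ ((mem_F a a).2 le_rfl))
      simpa using this
    have hb : b = z := by
      have := hU (mem_union_right _ ((mem_F b b).2 le_rfl))
      simpa using this
    subst ha
    subst hb
    simp only [osum, sum_singleton, w]
    simp
    unfold β v6
    split_ifs with h1 h2
    · exact le_refl _
    · have : 1 ≤ s b := Nat.one_le_iff_ne_zero.2 h2
      nlinarith
    · exact absurd rfl h1
  | succ n ih =>
    intro S a b hS hU
    have hFa : F a ⊆ S := subset_union_left.trans hU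
    have hFb : F b ⊆ S := subset_union_right.trans hU
    have haS : a ∈ S := hFa ((mem_F a a).2 le_rfl)
    have hbS : b ∈ S := hFb ((mem_F b b).2 le_rfl)
    have hcard : ∀ z ∈ S, (S.erase z).card = n + 1 := by
      intro z hz
      rw [card_erase_of_mem hz, hS]; rfl
    -- the terms
    let T : P → ℕ := fun z => osum (n + 1) (S.erase z) fun l =>
      (if z = a then ∑ y ∈ up a, w l y else if a < z then 0 else w l a) *
      (if z = b then ∑ y ∈ up b, w l y else if b < z then 0 else w l b)
    have hT : osum (n + 1 + 1) S (fun l => w l a * w l b) = ∑ z ∈ S, T z := by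
      show ∑ z ∈ S, osum (n + 1) (S.erase z) (fun l => w (z :: l) a * w (z :: l) b) = _
      refine sum_congr rfl fun z _ => osum_congr _ _ _ _ fun l hl => ?_
      have : l ≠ [] := by
        rintro rfl
        simp at hl
      rw [w_cons _ _ _ this, w_cons _ _ _ this]
    rw [hT]
    have hzero : ∀ z ∈ F a ∪ F b, z ≠ a → z ≠ b → T z = 0 := by
      intro z hz hza hzb
      have h1 : (a < z) ∨ (b < z) := by
        rcases mem_union.1 hz with h | h
        · exact Or.inl (lt_of_le_of_ne ((mem_F _ _).1 h) (Ne.symm hza))
        · exact Or.inr (lt_of_le_of_ne ((mem_F _ _).1 h) (Ne.symm hzb))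
      have h2 : T z = osum (n + 1) (S.erase z) fun _ => 0 := by
        apply osum_congr
        intro l _
        rw [if_neg hza, if_neg hzb]
        rcases h1 with h1 | h1
        · rw [if_pos h1, zero_mul]
        · rw [if_pos h1, mul_zero]
      rw [h2, osum_zero]
    have hout : ∀ z ∈ S \ (F a ∪ F b), 6 * T z ≤ n.factorial * β a b := by
      intro z hz
      rw [mem_sdiff, mem_union, not_or, mem_F, mem_F] at hz
      obtain ⟨hzS, hza, hzb⟩ := hz
      have h1 : T z = osum (n + 1) (S.erase z) fun l => w l a * w l b := by
        apply osum_congr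
        intro l _
        rw [if_neg (fun e => hza e.symm.le), if_neg (fun e => hza e.le),
          if_neg (fun e => hzb e.symm.le), if_neg (fun e => hzb e.le)]
      rw [h1]
      apply ih _ _ _ (hcard z hzS)
      intro y hy
      rw [mem_erase]
      refine ⟨?_, hU hy⟩
      rintro rfl
      rw [mem_union, mem_F, mem_F] at hy
      rcases hy with h | h
      · exact hza h
      · exact hzb h
    have hsplit : ∑ z ∈ S, T z = ∑ z ∈ S \ (F a ∪ F b), T z + ∑ z ∈ F a ∪ F b, T z :=
      (sum_sdiff hU).symm
    have hUpos : 1 ≤ (F a ∪ F b).card :=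
      card_pos.2 ⟨a, mem_union_left _ ((mem_F a a).2 le_rfl)⟩
    have hUle := card_le_card hU
    rw [hS] at hUle
    have hout' : 6 * ∑ z ∈ S \ (F a ∪ F b), T z ≤
        (n + 2 - (F a ∪ F b).card) * (n.factorial * β a b) := by
      rw [mul_sum]
      refine (sum_le_card_nsmul _ _ _ hout).trans ?_
      rw [smul_eq_mul, card_sdiff_of_subset hU, hS]
    -- inside
    have hin : 6 * ∑ z ∈ F a ∪ F b, T z ≤
        ((F a ∪ F b).card - 1) * (n.factorial * β a b) := by
      have hFsub : ∀ {x y : P}, x < y → F y ⊆ up x := by
        intro x y hxy u hu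
        rw [mem_F] at hu
        rw [mem_up]
        exact lt_of_lt_of_le hxy hu
      have hupS : ∀ x ∈ S, F x ⊆ S → up x ⊆ S.erase x := by
        intro x hx hFx y hy
        rw [mem_erase]
        refine ⟨?_, hFx (mem_insert_of_mem hy)⟩
        rintro rfl
        exact lt_irrefl _ ((mem_up y y).1 hy)
      by_cases hab : a = b
      · subst hab
        rw [union_self, card_F, Nat.add_sub_cancel]
        have h1 : ∑ z ∈ F a, T z = T a := by
          unfold F
          rw [sum_insert (fun h => lt_irrefl _ ((mem_up a a).1 h))]
          rw [sum_eq_zero, add_zero]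
          intro z hz
          have hza : z ≠ a := by
            rintro rfl
            exact lt_irrefl _ ((mem_up z z).1 hz)
          exact hzero z (mem_union_left _ (mem_insert_of_mem hz)) hza hza
        have h2 : T a = ∑ y ∈ up a, ∑ y' ∈ up a,
            osum (n + 1) (S.erase a) fun l => w l y * w l y' := by
          rw [← sum_congr rfl fun y _ => osum_sum (up a) (n + 1) (S.erase a)
            (fun y' l => w l y * w l y')]
          rw [← osum_sum (up a) (n + 1) (S.erase a) (fun y l => ∑ y' ∈ up a, w l y * w l y')]
          apply osum_congr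
          intro l _
          rw [if_pos rfl, sum_mul_sum]
        rw [h1, h2, mul_sum]
        calc ∑ y ∈ up a, 6 * ∑ y' ∈ up a, osum (n + 1) (S.erase a) (fun l => w l y * w l y')
            ≤ ∑ y ∈ up a, ∑ y' ∈ up a, n.factorial * β y y' := by
              refine sum_le_sum fun y hy => ?_
              rw [mul_sum]
              refine sum_le_sum fun y' hy' => ?_
              apply ih _ _ _ (hcard a haS)
              apply union_subset
              · exact (hFsub ((mem_up _ _).1 hy)).trans (hupS a haS hFa)
              · exact (hFsub ((mem_up _ _).1 hy')).trans (hupS a haS hFa)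
          _ = n.factorial * ∑ y ∈ up a, ∑ y' ∈ up a, β y y' := by
              rw [mul_sum]
              exact sum_congr rfl fun y _ => (mul_sum _ _ _).symm
          _ ≤ n.factorial * (s a * β a a) := Nat.mul_le_mul_left _ (K_self a)
          _ = s a * (n.factorial * β a a) := by ring
      · have h1 : ∑ z ∈ F a ∪ F b, T z = T a + T b := by
          rw [← sum_pair hab]
          symm
          apply sum_subset
          · intro z hz
            rw [mem_insert, mem_singleton] at hz
            rcases hz with rfl | rfl
            · exact mem_union_left _ ((mem_F _ _).2 le_rfl)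
            · exact mem_union_right _ ((mem_F _ _).2 le_rfl)
          · intro z hz hz'
            rw [mem_insert, mem_singleton, not_or] at hz'
            exact hzero z hz hz'.1 hz'.2
        have h2 : 6 * T a ≤ n.factorial * (if b < a then 0 else ∑ y ∈ up a, β y b) := by
          by_cases hba : b < a
          · have : T a = osum (n + 1) (S.erase a) fun _ => 0 := by
              apply osum_congr
              intro l _
              rw [if_neg hab, if_pos hba, mul_zero]
            rw [this, osum_zero]
            simp
          · have : T a = ∑ y ∈ up a, osum (n + 1) (S.erase a) fun l => w l y * w l b := by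
              rw [← osum_sum (up a) (n + 1) (S.erase a) (fun y l => w l y * w l b)]
              apply osum_congr
              intro l _
              rw [if_pos rfl, if_neg hab, if_neg hba, sum_mul]
            rw [this, if_neg hba, mul_sum, mul_sum]
            refine sum_le_sum fun y hy => ?_
            apply ih _ _ _ (hcard a haS)
            apply union_subset
            · exact (hFsub ((mem_up _ _).1 hy)).trans (hupS a haS hFa)
            · intro u hu
              rw [mem_erase]
              refine ⟨?_, hFb hu⟩
              rintro rfl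
              rw [mem_F] at hu
              exact hba (lt_of_le_of_ne hu (Ne.symm hab))
        have h3 : 6 * T b ≤ n.factorial * (if a < b then 0 else ∑ y ∈ up b, β a y) := by
          by_cases hba : a < b
          · have : T b = osum (n + 1) (S.erase b) fun _ => 0 := by
              apply osum_congr
              intro l _
              rw [if_neg (Ne.symm hab), if_pos hba, zero_mul]
            rw [this, osum_zero]
            simp
          · have : T b = ∑ y ∈ up b, osum (n + 1) (S.erase b) fun l => w l a * w l y := by
              rw [← osum_sum (up b) (n + 1) (S.erase b) (fun y l => w l a * w l y)]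
              apply osum_congr
              intro l _
              rw [if_pos rfl, if_neg (Ne.symm hab), if_neg hba, mul_sum]
            rw [this, if_neg hba, mul_sum, mul_sum]
            refine sum_le_sum fun y hy => ?_
            apply ih _ _ _ (hcard b hbS)
            apply union_subset
            · intro u hu
              rw [mem_erase]
              refine ⟨?_, hFa hu⟩
              rintro rfl
              rw [mem_F] at hu
              exact hba (lt_of_le_of_ne hu hab)
            · exact (hFsub ((mem_up _ _).1 hy)).trans (hupS b hbS hFb)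
        rw [h1, mul_add]
        calc 6 * T a + 6 * T b ≤ n.factorial * ((if b < a then 0 else ∑ y ∈ up a, β y b) +
              (if a < b then 0 else ∑ y ∈ up b, β a y)) := by
              rw [mul_add]; exact Nat.add_le_add h2 h3
          _ ≤ n.factorial * (((F a ∪ F b).card - 1) * β a b) :=
              Nat.mul_le_mul_left _ (K_ne a b hab)
          _ = _ := by ring
    rw [hsplit, mul_add, Nat.factorial_succ]
    calc _ ≤ (n + 2 - (F a ∪ F b).card) * (n.factorial * β a b) +
          ((F a ∪ F b).card - 1) * (n.factorial * β a b) := Nat.add_le_add hout' hin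
      _ = (n + 1) * (n.factorial * β a b) := by
          rw [← add_mul]
          congr 1
          omega
      _ = _ := by ring

end Lists

/-! ### Labelings and lists -/

section Link

variable {P : Type} [Fintype P] [PartialOrder P]

omit [PartialOrder P] in
lemma lab_inj (L : Labeling P) {x y : P} (h : lab L x = lab L y) : x = y := by
  unfold lab at h
  exact L.injective (Fin.ext (by omega))

lemma lsucc_spec (L : Labeling P) (x : P) (h : ∃ y, x < y) :
    x < lsucc L x ∧ ∀ y, x < y → lab L (lsucc L x) ≤ lab L y := by
  classical
  have hne : (univ.filter fun y => x < y).Nonempty := by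
    obtain ⟨y, hy⟩ := h
    exact ⟨y, by simp [hy]⟩
  unfold lsucc
  rw [dif_pos hne]
  set m := ((univ.filter fun y => x < y).image L).min' (hne.image L) with hm
  constructor
  · have h1 := Finset.min'_mem _ (hne.image L)
    rw [← hm, mem_image] at h1
    obtain ⟨y, hy, hy'⟩ := h1
    rw [← hy', Equiv.symm_apply_apply]
    simpa using hy
  · intro y hy
    have h1 : m ≤ L y := Finset.min'_le _ _ (mem_image_of_mem _ (by simp [hy]))
    unfold lab
    rw [Equiv.apply_symm_apply]
    exact Nat.succ_le_succ h1

lemma lsucc_max (L : Labeling P) (x : P) (h : ¬ ∃ y, x < y) : lsucc L x = x := by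
  classical
  unfold lsucc
  rw [dif_neg]
  rintro ⟨y, hy⟩
  exact h ⟨y, by simpa using hy⟩

lemma le_lsucc (L : Labeling P) (x : P) : x ≤ lsucc L x := by
  by_cases h : ∃ y, x < y
  · exact (lsucc_spec L x h).1.le
  · rw [lsucc_max L x h]

variable [Nonempty P]

lemma chain_mono (L : Labeling P) : Monotone (chainSeq L) :=
  monotone_nat_of_le_succ fun _ => le_lsucc L _

lemma chain_lab_mono (L : Labeling P) : Monotone fun j => lab L (chainSeq L j) := by
  apply monotone_nat_of_le_succ
  intro j
  change lab L (chainSeq L j) ≤ lab L (lsucc L (chainSeq L j))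
  cases j with
  | zero =>
    show lab L (L.symm _) ≤ _
    unfold lab
    rw [Equiv.apply_symm_apply]
    show 0 + 1 ≤ _
    omega
  | succ j =>
    show lab L (lsucc L (chainSeq L j)) ≤ lab L (lsucc L (lsucc L (chainSeq L j)))
    by_cases h : ∃ y, chainSeq L j < y
    · have h1 := lsucc_spec L _ h
      exact h1.2 _ (lt_of_lt_of_le h1.1 (le_lsucc L _))
    · rw [lsucc_max L _ h, lsucc_max L _ h]

variable [DecidableLT P]

lemma slide_map (L : Labeling P) (t : List P) : ∀ (v : P) (k : ℕ),
    t.map (lab L) = List.range' (k + 1) t.length → (∃ j, chainSeq L j = v) →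
    (∀ y, v < y → y ∈ t) → lab L v ≤ k → k + t.length = Fintype.card P →
    (slide v t).map (promote L) = List.range' k (t.length + 1) := by
  classical
  induction t with
  | nil =>
    intro v k h1 h2 h3 h4 h5
    have hmax : IsMax v := by
      intro y hy
      by_contra hne
      have := h3 y (lt_of_le_not_ge hy hne)
      simp at this
    simp only [slide, List.map_cons, List.map_nil, List.length_nil, zero_add]
    unfold promote
    rw [if_pos h2, if_pos hmax]
    simp at h5
    rw [h5]
    rfl
  | cons y t ih =>
    intro v k h1 h2 h3 h4 h5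
    simp only [List.map_cons, List.length_cons, List.range'_succ, List.cons.injEq] at h1
    obtain ⟨hy, ht⟩ := h1
    simp only [List.length_cons] at h5
    simp only [slide]
    rw [List.length_cons, List.range'_succ]
    have hmem : ∀ u ∈ t, k + 2 ≤ lab L u := by
      intro u hu
      have : lab L u ∈ t.map (lab L) := List.mem_map_of_mem hu
      rw [ht, List.mem_range'_1] at this
      omega
    split_ifs with hvy
    · have hsucc : lsucc L v = y := by
        have h6 := lsucc_spec L v ⟨y, hvy⟩
        apply lab_inj L
        apply le_antisymm (h6.2 y hvy)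
        rcases List.mem_cons.1 (h3 _ h6.1) with h7 | h7
        · rw [h7]
        · have := hmem _ h7
          omega
      have hv : promote L v = k := by
        unfold promote
        rw [if_pos h2, if_neg, hsucc, hy]
        · rfl
        · intro hmax
          exact absurd (hmax hvy.le) (not_le_of_gt hvy)
      rw [List.map_cons, hv]
      congr 1
      apply ih y (k + 1) ht
      · obtain ⟨j, hj⟩ := h2
        refine ⟨j + 1, ?_⟩
        show lsucc L (chainSeq L j) = y
        rw [hj, hsucc]
      · intro u hu
        rcases List.mem_cons.1 (h3 u (hvy.trans hu)) with h7 | h7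
        · exact absurd h7.symm hu.ne
        · exact h7
      · omega
      · omega
    · have hy' : ¬ ∃ j, chainSeq L j = y := by
        rintro ⟨j, hj⟩
        obtain ⟨i, hi⟩ := h2
        rcases le_total i j with hij | hij
        · have := chain_mono L hij
          rw [hi, hj] at this
          have hne : v ≠ y := by
            rintro rfl
            omega
          exact hvy (lt_of_le_of_ne this hne)
        · have := chain_lab_mono L hij
          simp only at this
          rw [hi, hj] at this
          omega
      have hv : promote L y = k := by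
        unfold promote
        rw [if_neg hy', hy]
        rfl
      rw [List.map_cons, hv]
      congr 1
      apply ih v (k + 1) ht h2
      · intro u hu
        rcases List.mem_cons.1 (h3 u hu) with h7 | h7
        · rw [h7] at hu
          exact absurd hu hvy
        · exact h7
      · omega
      · omega

/-- The list of the elements in increasing order of labels. -/
def toList (L : Labeling P) : List P := List.ofFn fun i => L.symm i

omit [Nonempty P] [DecidableLT P] [PartialOrder P] in
lemma toList_map (L : Labeling P) : (toList L).map (lab L) = List.range' 1 (Fintype.card P) := by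
  unfold toList
  rw [List.map_ofFn]
  apply List.ext_getElem
  · simp
  · intro i h1 h2
    simp [lab, add_comm]

omit [Nonempty P] [DecidableLT P] [PartialOrder P] in
lemma toList_nodup (L : Labeling P) : (toList L).Nodup := by
  unfold toList
  rw [List.nodup_ofFn]
  exact L.symm.injective

omit [Nonempty P] [DecidableLT P] [PartialOrder P] in
lemma mem_toList (L : Labeling P) (x : P) : x ∈ toList L := by
  unfold toList
  rw [List.mem_ofFn]
  exact ⟨L x, by simp⟩

omit [Nonempty P] [DecidableLT P] [PartialOrder P] in
lemma toList_inj {L M : Labeling P} (h : toList L = toList M) : L = M := by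
  unfold toList at h
  have := List.ofFn_injective h
  apply Equiv.symm_bijective.injective
  ext i
  exact congrFun this i

/-- In terms of lists, promotion is `slide`. -/
lemma toList_eq_cons (L : Labeling P) : ∃ t, toList L = L.symm ⟨0, Fintype.card_pos⟩ :: t ∧
    (slide (L.symm ⟨0, Fintype.card_pos⟩) t).map (promote L) =
      List.range' 1 (Fintype.card P) := by
  have h0 : (toList L) ≠ [] := by
    intro h
    have := mem_toList L (L.symm ⟨0, Fintype.card_pos⟩)
    rw [h] at this
    simp at this
  obtain ⟨v, t, hvt⟩ := List.exists_cons_of_ne_nil h0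
  have hmap := toList_map L
  have hlen : (toList L).length = Fintype.card P := by simp [toList]
  rw [hvt] at hmap hlen
  rw [← hlen, List.length_cons, List.map_cons, List.range'_succ, List.cons.injEq] at hmap
  have hv : v = L.symm ⟨0, Fintype.card_pos⟩ := by
    apply lab_inj L
    rw [hmap.1]
    unfold lab
    rw [Equiv.apply_symm_apply]
  refine ⟨t, by rw [hvt, hv], ?_⟩
  rw [← hv, ← hlen, List.length_cons]
  apply slide_map L t v 1 hmap.2 ⟨0, hv.symm⟩
  · intro y hy
    have := mem_toList L y
    rw [hvt] at this
    rcases List.mem_cons.1 this with h | h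
    · exact absurd h.symm hy.ne
    · exact h
  · omega
  · rw [List.length_cons] at hlen
    omega

omit [Fintype P] [Nonempty P] in
lemma slide_perm (t : List P) : ∀ v : P, (slide v t).Perm (v :: t) := by
  induction t with
  | nil => intro v; exact List.Perm.refl _
  | cons y t ih =>
    intro v
    simp only [slide]
    split_ifs
    · exact (ih y).cons v
    · exact ((ih v).cons y).trans (List.Perm.swap v y t)

/-- Promotion maps labelings to labelings. -/
lemma promote_labeling (L : Labeling P) : ∃ M : Labeling P, ∀ x, promote L x = lab M x := by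
  classical
  obtain ⟨t, h1, h2⟩ := toList_eq_cons L
  set v := L.symm ⟨0, Fintype.card_pos⟩
  have hmem : ∀ x, x ∈ slide v t := by
    intro x
    rw [(slide_perm t v).mem_iff, ← h1]
    exact mem_toList L x
  have hinj : Function.Injective (promote L) := by
    have : ((slide v t).map (promote L)).Nodup := by
      rw [h2]; exact List.nodup_range'
    intro x y hxy
    exact List.inj_on_of_nodup_map this (hmem x) (hmem y) hxy
  have hrange : ∀ x, 1 ≤ promote L x ∧ promote L x < 1 + Fintype.card P := by
    intro x
    have : promote L x ∈ (slide v t).map (promote L) := List.mem_map_of_mem (hmem x)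
    rw [h2, List.mem_range'_1] at this
    exact this
  let g : P → Fin (Fintype.card P) := fun x =>
    ⟨promote L x - 1, by have := hrange x; omega⟩
  have hg : Function.Bijective g := by
    rw [Fintype.bijective_iff_injective_and_card]
    refine ⟨fun x y hxy => hinj ?_, by simp⟩
    have h3 := congrArg Fin.val hxy
    simp only [g] at h3
    have := hrange x
    have := hrange y
    omega
  refine ⟨Equiv.ofBijective g hg, fun x => ?_⟩
  have := hrange x
  simp only [lab, Equiv.ofBijective_apply, g]
  omega

variable [DecidableEq P]

lemma card_preimages (M : Labeling P) : (preimages M).card ≤ ∑ v, w (toList M) v := by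
  classical
  have h1 : (preimages M).card ≤
      ((univ : Finset P).biUnion fun v => (Wset (toList M) v).image (List.cons v)).card := by
    apply card_le_card_of_injOn toList
    · intro L hL
      have hL' : ∀ x, promote L x = lab M x := by
        simpa [preimages] using hL
      obtain ⟨t, h2, h3⟩ := toList_eq_cons L
      set v := L.symm ⟨0, Fintype.card_pos⟩
      have h4 : slide v t = toList M := by
        have h5 : (slide v t).map (lab M) = (toList M).map (lab M) := by
          rw [toList_map, ← h3]
          exact List.map_congr_left fun x _ => (hL' x).symm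
        exact List.map_injective_iff.2 (fun x y h => lab_inj M h) h5
      rw [Finset.mem_coe, mem_biUnion]
      refine ⟨v, mem_univ _, mem_image.2 ⟨t, ?_, h2.symm⟩⟩
      rw [← h4]
      apply mem_Wset
      rw [← h2]
      exact toList_nodup L
    · intro L _ L' _ h
      exact toList_inj h
  refine h1.trans (card_biUnion_le.trans (sum_le_sum fun v _ => ?_))
  exact card_image_le.trans (card_Wset _ v)

lemma sum_sq (n : ℕ) (hn : Fintype.card P = n + 1) :
    6 * ∑ M : Labeling P, (preimages M).card ^ 2 ≤
      (n + 1).factorial * ((n + 2) * (n + 3)) := by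
  classical
  have h1 : ∑ M : Labeling P, (preimages M).card ^ 2 ≤
      ∑ a : P, ∑ b : P, ∑ M : Labeling P, w (toList M) a * w (toList M) b := by
    have : ∀ M : Labeling P, (preimages M).card ^ 2 ≤
        ∑ a : P, ∑ b : P, w (toList M) a * w (toList M) b := by
      intro M
      rw [← sum_mul_sum, ← sq]
      exact Nat.pow_le_pow_left (card_preimages M) 2
    refine (sum_le_sum fun M _ => this M).trans (le_of_eq ?_)
    rw [sum_comm]
    exact sum_congr rfl fun a _ => sum_comm
  have h2 : ∀ a b : P, 6 * ∑ M : Labeling P, w (toList M) a * w (toList M) b ≤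
      n.factorial * β a b := by
    intro a b
    have h3 := main n (univ : Finset P) a b (by rw [card_univ, hn]) (subset_univ _)
    refine le_trans (Nat.mul_le_mul_left _ ?_) h3
    have h4 : ∑ M : Labeling P, w (toList M) a * w (toList M) b =
        ∑ l ∈ (univ : Finset (Labeling P)).image toList, w l a * w l b := by
      rw [sum_image]
      intro L _ L' _ h
      exact toList_inj h
    rw [h4]
    apply sum_le_osum
    intro l hl
    obtain ⟨M, -, rfl⟩ := mem_image.1 hl
    refine ⟨?_, toList_nodup M, fun x _ => mem_univ x⟩
    simp [toList, hn]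
  have h5 := sum_beta (n + 1) (univ : Finset P) (by rw [card_univ, hn]) fun c _ => subset_univ _
  calc 6 * ∑ M : Labeling P, (preimages M).card ^ 2
      ≤ 6 * ∑ a : P, ∑ b : P, ∑ M : Labeling P, w (toList M) a * w (toList M) b :=
        Nat.mul_le_mul_left _ h1
    _ = ∑ a : P, ∑ b : P, 6 * ∑ M : Labeling P, w (toList M) a * w (toList M) b := by
        rw [mul_sum]
        exact sum_congr rfl fun a _ => mul_sum _ _ _
    _ ≤ ∑ a : P, ∑ b : P, n.factorial * β a b :=
        sum_le_sum fun a _ => sum_le_sum fun b _ => h2 a b
    _ = n.factorial * ∑ a : P, ∑ b : P, β a b := by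
        rw [mul_sum]
        exact sum_congr rfl fun a _ => (mul_sum _ _ _).symm
    _ ≤ n.factorial * ((n + 1) * (n + 1 + 1) * (n + 1 + 2)) := Nat.mul_le_mul_left _ h5
    _ = _ := by rw [Nat.factorial_succ]; ring

end Link

/-- **Among the posets with `n` elements the chain maximises the degree of noninvertibility of
extended promotion**: it is at most `(n+2)(n+1)/6` for every `n`-element poset. (The second part
records that extended promotion maps labelings to labelings.) -/
theorem result (P : Type) [Fintype P] [PartialOrder P] [Nonempty P] :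
    deg P ≤ ((Fintype.card P : ℚ) + 2) * ((Fintype.card P : ℚ) + 1) / 6 ∧
    ∀ L : Labeling P, ∃ M : Labeling P, ∀ x, promote L x = lab M x := by
  classical
  refine ⟨?_, promote_labeling⟩
  obtain ⟨n, hn⟩ : ∃ n, Fintype.card P = n + 1 :=
    Nat.exists_eq_succ_of_ne_zero Fintype.card_pos.ne'
  have h1 := sum_sq (P := P) n hn
  have h2 : Fintype.card (Labeling P) = (n + 1).factorial := by
    rw [Fintype.card_equiv (Fintype.equivFin P), hn]
  have hc : (Fintype.card P : ℚ) = (n : ℚ) + 1 := by rw [hn]; push_cast; ring
  unfold deg
  rw [h2, hc]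
  have hpos : (0 : ℚ) < ((n + 1).factorial : ℚ) := by exact_mod_cast Nat.factorial_pos _
  rw [div_le_div_iff₀ hpos (by norm_num)]
  have h3 : (6 : ℚ) * ∑ M : Labeling P, ((preimages M).card : ℚ) ^ 2 ≤
      ((n + 1).factorial : ℚ) * (((n : ℚ) + 2) * (n + 3)) := by exact_mod_cast h1
  linarith

end Pool.Agent.Results.MP_180e15_co.ChainMaximises
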